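import Pool.Agent.W297.WS.Defs

set_option autoImplicit false
open Classical

namespace Pool.Agent.W400.WS.Cross

open Pool.Agent.W297.WS

variable {d : ℕ}

/-- the point of the euclidean space -/
noncomputable def zz (x : Fin d ⊕ Fin d → ℝ) : EuclideanSpace ℝ (Fin d) :=
  WithLp.toLp 2 fun i => x (Sum.inl i) - x (Sum.inr i)

theorem zz_apply (x : Fin d ⊕ Fin d → ℝ) (i : Fin d) :
    zz x i = x (Sum.inl i) - x (Sum.inr i) := rfl

/-- l1 norm -/
noncomputable def S1 (z : EuclideanSpace ℝ (Fin d)) : ℝ := ∑ i, |z i|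

/-- backward map -/
noncomputable def bk (z : EuclideanSpace ℝ (Fin d)) : Fin d ⊕ Fin d → ℝ
  | Sum.inl i => max (z i) 0 / S1 z
  | Sum.inr i => max (-z i) 0 / S1 z

theorem facts {x : Fin d ⊕ Fin d → ℝ} (hx : x ∈ Geo (cpAdj d) Finset.univ) (i : Fin d) :
    0 ≤ x (Sum.inl i) ∧ 0 ≤ x (Sum.inr i) ∧ (x (Sum.inl i) = 0 ∨ x (Sum.inr i) = 0) := by
  refine ⟨hx.1 _, hx.1 _, ?_⟩
  by_contra hc
  push Not at hc
  exact hx.2.2.2 _ _ hc.1 hc.2 rfl

theorem S1_zz {x : Fin d ⊕ Fin d → ℝ} (hx : x ∈ Geo (cpAdj d) Finset.univ) : S1 (zz x) = 1 := by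
  have h := hx.2.2.1
  rw [Fintype.sum_sum_type, ← Finset.sum_add_distrib] at h
  rw [← h]
  unfold S1
  refine Finset.sum_congr rfl fun i _ => ?_
  obtain ⟨h1, h2, h3⟩ := facts hx i
  rw [zz_apply]
  rcases h3 with h3 | h3
  · rw [h3, zero_sub, abs_neg, abs_of_nonneg h2, zero_add]
  · rw [h3, sub_zero, abs_of_nonneg h1, add_zero]

theorem zz_ne {x : Fin d ⊕ Fin d → ℝ} (hx : x ∈ Geo (cpAdj d) Finset.univ) : zz x ≠ 0 := by
  intro h
  have := S1_zz hx
  rw [h] at this
  unfold S1 at this
  simp at this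

theorem S1_pos {z : EuclideanSpace ℝ (Fin d)} (hz : z ≠ 0) : 0 < S1 z := by
  unfold S1
  obtain ⟨i, hi⟩ : ∃ i, z i ≠ 0 := by
    by_contra hc
    push Not at hc
    apply hz
    ext i
    exact hc i
  exact Finset.sum_pos' (fun i _ => abs_nonneg _) ⟨i, Finset.mem_univ i, abs_pos.2 hi⟩

theorem bk_mem {z : EuclideanSpace ℝ (Fin d)} (hz : z ≠ 0) :
    bk z ∈ Geo (cpAdj d) Finset.univ := by
  have hS := S1_pos hz
  refine ⟨?_, fun v hv => absurd (Finset.mem_univ v) hv, ?_, ?_⟩
  · rintro (i | i)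
    · exact div_nonneg (le_max_right _ _) hS.le
    · exact div_nonneg (le_max_right _ _) hS.le
  · rw [Fintype.sum_sum_type, ← Finset.sum_add_distrib]
    have : ∀ i, bk z (Sum.inl i) + bk z (Sum.inr i) = |z i| / S1 z := by
      intro i
      show max (z i) 0 / S1 z + max (-z i) 0 / S1 z = _
      rw [← add_div]
      congr 1
      rcases le_total (z i) 0 with h | h
      · rw [max_eq_right h, max_eq_left (by linarith), abs_of_nonpos h, zero_add]
      · rw [max_eq_left h, max_eq_right (by linarith), abs_of_nonneg h, add_zero]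
    rw [Finset.sum_congr rfl fun i _ => this i, ← Finset.sum_div]
    exact div_self hS.ne'
  · have key : ∀ i, bk z (Sum.inl i) ≠ 0 → bk z (Sum.inr i) ≠ 0 → False := by
      intro i h1 h2
      rcases le_total (z i) 0 with h | h
      · apply h1
        show max (z i) 0 / S1 z = 0
        rw [max_eq_right h, zero_div]
      · apply h2
        show max (-z i) 0 / S1 z = 0
        rw [max_eq_right (by linarith), zero_div]
    rintro (i | i) (j | j) hi hj
    · trivial
    · show i ≠ j
      rintro rfl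
      exact key i hi hj
    · show i ≠ j
      rintro rfl
      exact key i hj hi
    · trivial

theorem tCross : Pool.Agent.W297.WS.TCross := by
  intro d
  have hs : ∀ z ∈ Metric.sphere (0 : EuclideanSpace ℝ (Fin d)) 1, z ≠ 0 := by
    rintro z hz rfl
    simp at hz
  refine ⟨{ toFun := fun x => ⟨‖zz x.1‖⁻¹ • zz x.1, ?_⟩
            invFun := fun z => ⟨bk z.1, bk_mem (hs z.1 z.2)⟩
            left_inv := ?_
            right_inv := ?_
            continuous_toFun := ?_
            continuous_invFun := ?_ }⟩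
  · rw [mem_sphere_zero_iff_norm, norm_smul, norm_inv, norm_norm]
    exact inv_mul_cancel₀ (norm_ne_zero_iff.2 (zz_ne x.2))
  · intro x
    apply Subtype.ext
    have hn : 0 < ‖zz x.1‖ := norm_pos_iff.2 (zz_ne x.2)
    have hS : S1 (‖zz x.1‖⁻¹ • zz x.1) = ‖zz x.1‖⁻¹ := by
      have : S1 (‖zz x.1‖⁻¹ • zz x.1) = ‖zz x.1‖⁻¹ * S1 (zz x.1) := by
        unfold S1
        rw [Finset.mul_sum]
        refine Finset.sum_congr rfl fun i _ => ?_
        rw [PiLp.smul_apply, smul_eq_mul, abs_mul, abs_of_pos (inv_pos.2 hn)]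
      rw [this, S1_zz x.2, mul_one]
    have hm : ∀ a : ℝ, max (‖zz x.1‖⁻¹ * a) 0 / ‖zz x.1‖⁻¹ = max a 0 := by
      intro a
      have h1 : max (‖zz x.1‖⁻¹ * a) 0 = ‖zz x.1‖⁻¹ * max a 0 := by
        rw [mul_max_of_nonneg _ _ (inv_pos.2 hn).le, mul_zero]
      rw [h1]
      field_simp
    show bk (‖zz x.1‖⁻¹ • zz x.1) = x.1
    funext v
    rcases v with i | i
    · show max ((‖zz x.1‖⁻¹ • zz x.1) i) 0 / S1 (‖zz x.1‖⁻¹ • zz x.1) = _
      rw [hS, PiLp.smul_apply, smul_eq_mul, hm, zz_apply]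
      obtain ⟨h1, h2, h3⟩ := facts x.2 i
      rcases h3 with h3 | h3
      · rw [h3, zero_sub]
        exact max_eq_right (by linarith)
      · rw [h3, sub_zero]
        exact max_eq_left h1
    · show max (-(‖zz x.1‖⁻¹ • zz x.1) i) 0 / S1 (‖zz x.1‖⁻¹ • zz x.1) = _
      rw [hS, PiLp.smul_apply, smul_eq_mul, ← mul_neg, hm, zz_apply]
      obtain ⟨h1, h2, h3⟩ := facts x.2 i
      rcases h3 with h3 | h3
      · rw [h3, zero_sub, neg_neg]
        exact max_eq_left h2
      · rw [h3, sub_zero]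
        exact max_eq_right (by linarith)
  · intro z
    apply Subtype.ext
    have hz := hs z.1 z.2
    have hS := S1_pos hz
    have h1 : zz (bk z.1) = (S1 z.1)⁻¹ • z.1 := by
      ext i
      rw [zz_apply, PiLp.smul_apply, smul_eq_mul]
      show max (z.1 i) 0 / S1 z.1 - max (-z.1 i) 0 / S1 z.1 = _
      rw [← sub_div]
      rcases le_total (z.1 i) 0 with h | h
      · rw [max_eq_right h, max_eq_left (by linarith)]
        field_simp
        ring
      · rw [max_eq_left h, max_eq_right (by linarith)]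
        field_simp
        ring
    have hn : ‖z.1‖ = 1 := mem_sphere_zero_iff_norm.1 z.2
    show ‖zz (bk z.1)‖⁻¹ • zz (bk z.1) = z.1
    rw [h1, norm_smul, norm_inv, Real.norm_of_nonneg hS.le, hn, mul_one, inv_inv, smul_smul,
      mul_inv_cancel₀ hS.ne', one_smul]
  · have hc : Continuous fun x : Geo (cpAdj d) Finset.univ => zz x.1 := by
      unfold zz
      refine (PiLp.continuous_toLp 2 _).comp (continuous_pi fun i => ?_)
      exact ((continuous_apply _).comp continuous_subtype_val).sub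
        ((continuous_apply _).comp continuous_subtype_val)
    refine Continuous.subtype_mk ?_ _
    exact (hc.norm.inv₀ fun x => norm_ne_zero_iff.2 (zz_ne x.2)).smul hc
  · have hci : ∀ i, Continuous fun z : Metric.sphere (0 : EuclideanSpace ℝ (Fin d)) 1 => z.1 i :=
      fun i => (PiLp.continuous_apply 2 _ i).comp continuous_subtype_val
    have hcS : Continuous fun z : Metric.sphere (0 : EuclideanSpace ℝ (Fin d)) 1 => S1 z.1 := by
      unfold S1
      exact continuous_finsetSum _ fun i _ => (hci i).abs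
    have hne : ∀ z : Metric.sphere (0 : EuclideanSpace ℝ (Fin d)) 1, S1 z.1 ≠ 0 := fun z =>
      (S1_pos (hs z.1 z.2)).ne'
    refine Continuous.subtype_mk (continuous_pi fun v => ?_) _
    rcases v with i | i
    · exact ((hci i).max continuous_const).div hcS hne
    · exact ((hci i).neg.max continuous_const).div hcS hne

end Pool.Agent.W400.WS.Cross
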