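import Pool.Agent.W203.WS.Stm

/-! Project WS, part R1: small frequencies, all shifts. -/

set_option autoImplicit false

open MeasureTheory Finset

namespace Pool.Agent.W400.WS

open Pool.Agent.W203.WS

theorem prod_sub {ι : Type} (z : ι → ℂ) (w : ℂ) (A D : ℝ) (hA : ‖w‖ ≤ A) (hD : 0 ≤ D)
    (hz : ∀ i, ‖z i - w‖ ≤ D) (T : Finset ι) :
    ‖(∏ i ∈ T, z i) - w ^ T.card‖ ≤ (A + D) ^ T.card - A ^ T.card := by
  classical
  have hA0 : 0 ≤ A := (norm_nonneg _).trans hA
  induction T using Finset.induction_on with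
  | empty => simp
  | insert a T ha ih =>
    rw [prod_insert ha, card_insert_of_notMem ha]
    have e : z a * (∏ i ∈ T, z i) - w ^ (T.card + 1) =
        z a * ((∏ i ∈ T, z i) - w ^ T.card) + (z a - w) * w ^ T.card := by ring
    rw [e]
    have h1 : ‖z a‖ ≤ A + D := by
      have h2 : z a = w + (z a - w) := by ring
      rw [h2]
      exact (norm_add_le _ _).trans (add_le_add hA (hz a))
    have h3 : ‖w ^ T.card‖ ≤ A ^ T.card := by
      rw [norm_pow]
      exact pow_le_pow_left₀ (norm_nonneg _) hA _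
    calc ‖z a * ((∏ i ∈ T, z i) - w ^ T.card) + (z a - w) * w ^ T.card‖
        ≤ ‖z a‖ * ‖(∏ i ∈ T, z i) - w ^ T.card‖ + ‖z a - w‖ * ‖w ^ T.card‖ := by
          rw [← norm_mul, ← norm_mul]
          exact norm_add_le _ _
      _ ≤ (A + D) * ((A + D) ^ T.card - A ^ T.card) + D * A ^ T.card :=
          add_le_add (mul_le_mul h1 ih (norm_nonneg _) (by positivity))
            (mul_le_mul (hz a) h3 (norm_nonneg _) hD)
      _ = _ := by ring

theorem pow_sub (A D : ℝ) (hA : 0 ≤ A) (hD : 0 ≤ D) (n : ℕ) :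
    (A + D) ^ (n + 1) - A ^ (n + 1) ≤ (n + 1) * D * (A + D) ^ n := by
  induction n with
  | zero => simp
  | succ n ih =>
    have h1 : A ^ (n + 1) ≤ (A + D) ^ (n + 1) := pow_le_pow_left₀ hA (by linarith) _
    have e : (A + D) ^ (n + 1 + 1) - A ^ (n + 1 + 1) =
        (A + D) * ((A + D) ^ (n + 1) - A ^ (n + 1)) + D * A ^ (n + 1) := by ring
    rw [e]
    have h2 : (A + D) * ((A + D) ^ (n + 1) - A ^ (n + 1)) ≤
        (A + D) * ((n + 1) * D * (A + D) ^ n) := mul_le_mul_of_nonneg_left ih (by linarith)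
    have h3 : D * A ^ (n + 1) ≤ D * (A + D) ^ (n + 1) := mul_le_mul_of_nonneg_left h1 hD
    push_cast
    calc _ ≤ (A + D) * ((n + 1) * D * (A + D) ^ n) + D * (A + D) ^ (n + 1) := add_le_add h2 h3
      _ = _ := by ring

/-- the elementary inequality behind the pointwise bound -/
theorem key (A C v P : ℝ) (m : ℕ) (hm : 4 ≤ m) (hA0 : 0 ≤ A) (hC : 0 < C) (hv : 0 ≤ v)
    (hP : 1 ≤ P) (hvP : v ^ 2 ≤ P) (h1 : A ≤ 3 * P) (h2 : 1 < v → A ≤ P / v) :
    (m + 1) * (C * v) * (A + C * v) ^ m ≤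
      (m + 1) * C * (3 + C) ^ m * P ^ m * (2 * (1 + v ^ 2)⁻¹) := by
  have hB : 0 ≤ A + C * v := by positivity
  have hpos : 0 < 1 + v ^ 2 := by positivity
  rcases le_or_gt v 1 with hv1 | hv1
  · have h3 : A + C * v ≤ (3 + C) * P := by nlinarith
    have h4 : (A + C * v) ^ m ≤ (3 + C) ^ m * P ^ m := by
      rw [← mul_pow]
      exact pow_le_pow_left₀ hB h3 m
    have h5 : v ≤ 2 * (1 + v ^ 2)⁻¹ := by
      rw [← div_eq_mul_inv, le_div_iff₀ hpos]
      nlinarith
    calc (m + 1) * (C * v) * (A + C * v) ^ m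
        ≤ (m + 1) * (C * v) * ((3 + C) ^ m * P ^ m) := by
          apply mul_le_mul_of_nonneg_left h4; positivity
      _ = (m + 1) * C * (3 + C) ^ m * P ^ m * v := by ring
      _ ≤ _ := by apply mul_le_mul_of_nonneg_left h5; positivity
  · have hv0 : 0 < v := by linarith
    have h3 : A + C * v ≤ (3 + C) * P / v := by
      have h4 : C * v ≤ C * P / v := by
        rw [le_div_iff₀ hv0]
        nlinarith
      have h5 : P / v ≤ 3 * P / v := by
        apply div_le_div_of_nonneg_right _ hv0.le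
        linarith
      calc A + C * v ≤ P / v + C * P / v := add_le_add (h2 hv1) h4
        _ ≤ 3 * P / v + C * P / v := by linarith
        _ = _ := by ring
    have h4 : (A + C * v) ^ m ≤ ((3 + C) * P / v) ^ m := pow_le_pow_left₀ hB h3 m
    have h5 : v * (v ^ m)⁻¹ ≤ 2 * (1 + v ^ 2)⁻¹ := by
      have h6 : v ^ 4 ≤ v ^ m := pow_le_pow_right₀ hv1.le hm
      rw [← div_eq_mul_inv, ← div_eq_mul_inv, div_le_div_iff₀ (by positivity) hpos]
      have h7 : v * (1 + v ^ 2) ≤ 2 * v ^ 4 := by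
        have h8 : 1 ≤ v ^ 2 := by nlinarith
        have h9 : v ≤ v ^ 2 := by nlinarith
        nlinarith
      linarith
    calc (m + 1) * (C * v) * (A + C * v) ^ m
        ≤ (m + 1) * (C * v) * ((3 + C) * P / v) ^ m := by
          apply mul_le_mul_of_nonneg_left h4; positivity
      _ = (m + 1) * C * (3 + C) ^ m * P ^ m * (v * (v ^ m)⁻¹) := by
          rw [div_pow, mul_pow, div_eq_mul_inv]
          ring
      _ ≤ _ := by apply mul_le_mul_of_nonneg_left h5; positivity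

theorem t_R1 (h1 : S_IB) (h2 : S_DF) : S_R1 := by
  intro k s hk hs
  obtain ⟨C, hC, hDF⟩ := h2 k (by omega)
  obtain ⟨m, rfl⟩ : ∃ m, s = m + 1 := ⟨s - 1, by omega⟩
  have hm : 4 ≤ m := by omega
  refine ⟨((m : ℝ) + 1) * C * (3 + C) ^ m * 2 * Real.pi, by positivity, ?_⟩
  intro P ε θ hP hε hε1 hθ
  have hP1 : (1 : ℝ) ≤ P := by exact_mod_cast hP
  have hP0 : (0 : ℝ) < P := by linarith
  set c : ℝ := (P : ℝ) ^ k with hc
  have hc0 : 0 < c := by positivity
  set K : ℝ := ((m : ℝ) + 1) * C * (3 + C) ^ m with hK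
  have hK0 : 0 < K := by positivity
  have hpt : ∀ t ∈ Set.Icc (-T0 k P) (T0 k P),
      Kh ε t * ‖(∏ i, S k P t (θ i)) - J1 k P t ^ (m + 1)‖ ≤
        ε * (K * (P : ℝ) ^ m * 2) * (1 + (c * t) ^ 2)⁻¹ := by
    intro t ht
    have habs : |t| ≤ T0 k P := abs_le.2 ht
    have hv2 : (|t| * c) ^ 2 ≤ P := by
      have h3 : |t| * c ≤ (P : ℝ) ^ (1 / 2 : ℝ) := by
        calc |t| * c ≤ T0 k P * c := mul_le_mul_of_nonneg_right habs hc0.le
          _ = (P : ℝ) ^ (1 / 2 : ℝ) := by
            unfold T0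
            rw [hc, ← Real.rpow_natCast, ← Real.rpow_add hP0]
            congr 1
            ring
      calc (|t| * c) ^ 2 ≤ ((P : ℝ) ^ (1 / 2 : ℝ)) ^ 2 := pow_le_pow_left₀ (by positivity) h3 2
        _ = P := by
          rw [← Real.rpow_natCast, ← Real.rpow_mul hP0.le]
          norm_num
    have hz : ∀ i, ‖S k P t (θ i) - J1 k P t‖ ≤ C * (|t| * c) := by
      intro i
      have h3 := hθ i (Set.mem_univ i)
      have h4 := hDF P t (θ i) hP h3.1 h3.2
      rw [← mul_assoc]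
      exact h4
    have h5 := prod_sub (fun i => S k P t (θ i)) (J1 k P t) ‖J1 k P t‖ (C * (|t| * c)) le_rfl
      (by positivity) hz univ
    rw [card_univ, Fintype.card_fin] at h5
    have h6 := pow_sub ‖J1 k P t‖ (C * (|t| * c)) (norm_nonneg _) (by positivity) m
    obtain ⟨h7, h8⟩ := h1 k P t (by omega) hP
    have h9 := key ‖J1 k P t‖ C (|t| * c) P m hm (norm_nonneg _) hC (by positivity) hP1 hv2 h7
      (by
        intro hv
        have ht0 : t ≠ 0 := by
          rintro rfl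
          rw [abs_zero, zero_mul] at hv
          linarith
        refine (h8 ht0).trans (le_of_eq ?_)
        have ht1 : 0 < |t| := abs_pos.2 ht0
        obtain ⟨k', rfl⟩ : ∃ k', k = k' + 1 := ⟨k - 1, by omega⟩
        rw [hc, Nat.add_sub_cancel, pow_succ]
        field_simp)
    have h10 : (|t| * c) ^ 2 = (c * t) ^ 2 := by
      rw [mul_pow, sq_abs, mul_pow]
      ring
    rw [h10] at h9
    have h11 : Kh ε t ≤ ε := by
      unfold Kh
      have h12 : Real.exp (-Real.pi * (ε * t) ^ 2) ≤ 1 := by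
        apply Real.exp_le_one_iff.2
        have := Real.pi_pos
        have h13 : 0 ≤ (ε * t) ^ 2 := sq_nonneg _
        nlinarith
      nlinarith
    calc Kh ε t * ‖(∏ i, S k P t (θ i)) - J1 k P t ^ (m + 1)‖
        ≤ ε * (K * (P : ℝ) ^ m * (2 * (1 + (c * t) ^ 2)⁻¹)) :=
          mul_le_mul h11 (h5.trans (h6.trans h9)) (norm_nonneg _) hε.le
      _ = _ := by ring
  have hint : Integrable (fun t : ℝ => ε * (K * (P : ℝ) ^ m * 2) * (1 + (c * t) ^ 2)⁻¹) :=
    (integrable_inv_one_add_sq.comp_mul_left' hc0.ne').const_mul _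
  have hI : ∫ t : ℝ, ε * (K * (P : ℝ) ^ m * 2) * (1 + (c * t) ^ 2)⁻¹ =
      ε * (K * (P : ℝ) ^ m * 2) * (c⁻¹ * Real.pi) := by
    rw [integral_const_mul]
    congr 1
    have h3 := MeasureTheory.Measure.integral_comp_mul_left (fun x : ℝ => (1 + x ^ 2)⁻¹) c
    rw [h3, integral_univ_inv_one_add_sq, abs_of_pos (inv_pos.2 hc0), smul_eq_mul]
  calc ∫ t in Set.Icc (-T0 k P) (T0 k P),
        Kh ε t * ‖(∏ i, S k P t (θ i)) - J1 k P t ^ (m + 1)‖
      ≤ ∫ t in Set.Icc (-T0 k P) (T0 k P),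
          ε * (K * (P : ℝ) ^ m * 2) * (1 + (c * t) ^ 2)⁻¹ := by
        refine integral_mono_of_nonneg (Filter.Eventually.of_forall fun t => ?_)
          hint.integrableOn ?_
        · have : 0 ≤ Kh ε t := by unfold Kh; positivity
          positivity
        · exact (ae_restrict_mem measurableSet_Icc).mono hpt
    _ ≤ ∫ t : ℝ, ε * (K * (P : ℝ) ^ m * 2) * (1 + (c * t) ^ 2)⁻¹ := by
        refine setIntegral_le_integral hint (Filter.Eventually.of_forall fun t => ?_)
        show 0 ≤ ε * (K * (P : ℝ) ^ m * 2) * (1 + (c * t) ^ 2)⁻¹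
        positivity
    _ = K * 2 * Real.pi * ε * (P : ℝ) ^ (((m + 1 : ℕ) : ℝ) - 1 - k) := by
        rw [hI, show ((m + 1 : ℕ) : ℝ) - 1 - k = (m : ℝ) - k by push_cast; ring,
          Real.rpow_sub hP0, Real.rpow_natCast, Real.rpow_natCast, hc]
        field_simp

end Pool.Agent.W400.WS
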