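import Pool.Agent.W297.WS.Defs

set_option autoImplicit false
open Classical

namespace Pool.Agent.W400.WS.Relabel

open Pool.Agent.W297.WS

section
variable {V V' : Type} (W : Finset V) (f : V → V')

/-- forward map -/
noncomputable def fw (x : V → ℝ) : V' → ℝ := fun v' => ∑ v ∈ W.filter (fun v => f v = v'), x v

/-- backward map -/
noncomputable def bw (x' : V' → ℝ) : V → ℝ := fun v => if v ∈ W then x' (f v) else 0

variable {W f}

theorem fw_apply (hf : Set.InjOn f (W : Set V)) (x : V → ℝ) {v : V} (hv : v ∈ W) :
    fw W f x (f v) = x v := by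
  unfold fw
  have : W.filter (fun w => f w = f v) = {v} := by
    ext w
    rw [Finset.mem_filter, Finset.mem_singleton]
    constructor
    · rintro ⟨h1, h2⟩
      exact hf h1 hv h2
    · rintro rfl
      exact ⟨hv, rfl⟩
  rw [this, Finset.sum_singleton]

theorem fw_ne (x : V → ℝ) {v' : V'} (h : fw W f x v' ≠ 0) : ∃ v ∈ W, f v = v' ∧ x v ≠ 0 := by
  unfold fw at h
  obtain ⟨v, hv, hx⟩ := Finset.exists_ne_zero_of_sum_ne_zero h
  rw [Finset.mem_filter] at hv
  exact ⟨v, hv.1, hv.2, hx⟩

end

theorem tRelabel : Pool.Agent.W297.WS.TRelabel := by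
  intro V V' adj adj' W f hf hadj
  have hfw : ∀ x ∈ Geo adj W, fw W f x ∈ Geo adj' (W.image f) := by
    rintro x ⟨h1, h2, h3, h4⟩
    refine ⟨fun v' => Finset.sum_nonneg fun v _ => h1 v, ?_, ?_, ?_⟩
    · intro v' hv'
      unfold fw
      apply Finset.sum_eq_zero
      intro v hv
      rw [Finset.mem_filter] at hv
      exact absurd (Finset.mem_image.2 ⟨v, hv.1, hv.2⟩) hv'
    · unfold fw
      rw [Finset.sum_fiberwise_of_maps_to (fun v hv => Finset.mem_image_of_mem f hv), h3]
    · intro v' w' hv' hw'
      obtain ⟨v, hv, rfl, hxv⟩ := fw_ne x hv'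
      obtain ⟨w, hw, rfl, hxw⟩ := fw_ne x hw'
      exact (hadj v hv w hw).2 (h4 v w hxv hxw)
  have hbw : ∀ x ∈ Geo adj' (W.image f), bw W f x ∈ Geo adj W := by
    rintro x ⟨h1, h2, h3, h4⟩
    refine ⟨?_, ?_, ?_, ?_⟩
    · intro v
      unfold bw
      split_ifs
      · exact h1 _
      · exact le_refl _
    · intro v hv
      unfold bw
      rw [if_neg hv]
    · rw [← h3, Finset.sum_image hf]
      refine Finset.sum_congr rfl fun v hv => ?_
      unfold bw
      rw [if_pos hv]
    · intro v w hv hw
      unfold bw at hv hw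
      split_ifs at hv with a1
      · split_ifs at hw with a2
        · exact (hadj v a1 w a2).1 (h4 _ _ hv hw)
        · exact absurd rfl hw
      · exact absurd rfl hv
  refine ⟨{ toFun := fun x => ⟨fw W f x.1, hfw x.1 x.2⟩
            invFun := fun x => ⟨bw W f x.1, hbw x.1 x.2⟩
            left_inv := ?_
            right_inv := ?_
            continuous_toFun := ?_
            continuous_invFun := ?_ }⟩
  · intro x
    apply Subtype.ext
    funext v
    show bw W f (fw W f x.1) v = x.1 v
    by_cases hv : v ∈ W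
    · unfold bw
      rw [if_pos hv, fw_apply hf _ hv]
    · unfold bw
      rw [if_neg hv, x.2.2.1 v hv]
  · intro x
    apply Subtype.ext
    funext v'
    show fw W f (bw W f x.1) v' = x.1 v'
    by_cases hv' : v' ∈ W.image f
    · obtain ⟨v, hv, rfl⟩ := Finset.mem_image.1 hv'
      rw [fw_apply hf _ hv]
      unfold bw
      rw [if_pos hv]
    · rw [x.2.2.1 v' hv']
      exact (hfw _ (hbw _ x.2)).2.1 v' hv'
  · refine Continuous.subtype_mk (continuous_pi fun v' => ?_) _
    unfold fw
    exact continuous_finsetSum _ fun v _ => (continuous_apply v).comp continuous_subtype_val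
  · refine Continuous.subtype_mk (continuous_pi fun v => ?_) _
    unfold bw
    split_ifs
    · exact (continuous_apply _).comp continuous_subtype_val
    · exact continuous_const

end Pool.Agent.W400.WS.Relabel
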