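import Pool.Agent.W297.WS.Defs

set_option autoImplicit false
open Classical

namespace Pool.Agent.W400.WS.Removal

open Pool.Agent.W297.WS Set

variable {V : Type} {adj : V → V → Prop}

theorem isClosed_geo (W : Finset V) : IsClosed (Geo adj W) := by
  have h : Geo adj W = (⋂ v, {x : V → ℝ | 0 ≤ x v}) ∩ ((⋂ v, {x : V → ℝ | v ∉ W → x v = 0}) ∩
      ({x : V → ℝ | ∑ v ∈ W, x v = 1} ∩
        ⋂ v, ⋂ w, {x : V → ℝ | x v ≠ 0 → x w ≠ 0 → adj v w})) := by
    ext x
    simp [Geo]
  rw [h]
  refine IsClosed.inter (isClosed_iInter fun v => ?_) (IsClosed.inter (isClosed_iInter fun v => ?_)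
    (IsClosed.inter ?_ (isClosed_iInter fun v => isClosed_iInter fun w => ?_)))
  · exact isClosed_le continuous_const (continuous_apply v)
  · by_cases hv : v ∈ W
    · simp [hv]
    · simp only [hv, not_false_eq_true, forall_const]
      exact isClosed_eq (continuous_apply v) continuous_const
  · exact isClosed_eq (continuous_finsetSum _ fun v _ => continuous_apply v) continuous_const
  · by_cases hv : adj v w
    · simp [hv]
    · have : {x : V → ℝ | x v ≠ 0 → x w ≠ 0 → adj v w} = {x : V → ℝ | x v * x w = 0} := by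
        ext x
        simp only [mem_ofPred_eq, mul_eq_zero]
        constructor
        · intro h1
          by_contra h2
          push Not at h2
          exact hv (h1 h2.1 h2.2)
        · rintro (h1 | h1) h2 h3
          · exact absurd h1 h2
          · exact absurd h1 h3
      rw [this]
      exact isClosed_eq ((continuous_apply v).mul (continuous_apply w)) continuous_const

theorem geo_mono {L W : Finset V} (h : L ⊆ W) : Geo adj L ⊆ Geo adj W := by
  rintro x ⟨h1, h2, h3, h4⟩
  refine ⟨h1, fun v hv => h2 v fun hv' => hv (h hv'), ?_, h4⟩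
  rw [← h3]
  exact (Finset.sum_subset h fun v _ hv => h2 v hv).symm

theorem geo_of_supp {L W : Finset V} (h : L ⊆ W) {x : V → ℝ} (hx : x ∈ Geo adj W)
    (hs : ∀ v, v ∉ L → x v = 0) : x ∈ Geo adj L := by
  obtain ⟨h1, h2, h3, h4⟩ := hx
  refine ⟨h1, hs, ?_, h4⟩
  rw [← h3]
  exact Finset.sum_subset h fun v _ hv => hs v hv

theorem comb (hsym : ∀ a b, adj a b → adj b a) {W : Finset V} {a b : V → ℝ}
    (ha : a ∈ Geo adj W) (hb : b ∈ Geo adj W) {l : ℝ} (h0 : 0 ≤ l) (h1 : l ≤ 1)
    (h : l ≠ 0 → l ≠ 1 → ∀ v w, a v ≠ 0 → b w ≠ 0 → adj v w) :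
    (fun v => (1 - l) * a v + l * b v) ∈ Geo adj W := by
  by_cases hl0 : l = 0
  · subst hl0
    simpa using ha
  by_cases hl1 : l = 1
  · subst hl1
    simpa using hb
  have hcross := h hl0 hl1
  refine ⟨fun v => ?_, fun v hv => ?_, ?_, fun v w hv hw => ?_⟩
  · have := ha.1 v
    have := hb.1 v
    have h2 : 0 ≤ 1 - l := by linarith
    positivity
  · simp only
    rw [ha.2.1 v hv, hb.2.1 v hv]
    ring
  · rw [Finset.sum_add_distrib, ← Finset.mul_sum, ← Finset.mul_sum, ha.2.2.1, hb.2.2.1]
    ring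
  · have hv' : a v ≠ 0 ∨ b v ≠ 0 := by
      by_contra hc
      push Not at hc
      exact hv (by simp only; rw [hc.1, hc.2]; ring)
    have hw' : a w ≠ 0 ∨ b w ≠ 0 := by
      by_contra hc
      push Not at hc
      exact hw (by simp only; rw [hc.1, hc.2]; ring)
    rcases hv' with h2 | h2 <;> rcases hw' with h3 | h3
    · exact ha.2.2.2 v w h2 h3
    · exact hcross v w h2 h3
    · exact hsym _ _ (hcross w v h3 h2)
    · exact hb.2.2.2 v w h2 h3

theorem straight (hsym : ∀ a b, adj a b → adj b a) {X : Type} [TopologicalSpace X] {W : Finset V}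
    (f g : C(X, Geo adj W))
    (h : ∀ x v w, (f x).1 v ≠ 0 → (g x).1 w ≠ 0 → adj v w) : f.Homotopic g := by
  refine ⟨{ toFun := fun q => ⟨fun v => (1 - (q.1 : ℝ)) * (f q.2).1 v + (q.1 : ℝ) * (g q.2).1 v,
              comb hsym (f q.2).2 (g q.2).2 q.1.2.1 q.1.2.2 fun _ _ v w hv hw => h q.2 v w hv hw⟩
            continuous_toFun := ?_
            map_zero_left := ?_
            map_one_left := ?_ }⟩
  · refine Continuous.subtype_mk (continuous_pi fun v => ?_) _
    have h1 : Continuous fun q : unitInterval × X => (f q.2).1 v :=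
      (continuous_apply v).comp (continuous_subtype_val.comp (f.continuous.comp continuous_snd))
    have h2 : Continuous fun q : unitInterval × X => (g q.2).1 v :=
      (continuous_apply v).comp (continuous_subtype_val.comp (g.continuous.comp continuous_snd))
    have h3 : Continuous fun q : unitInterval × X => (q.1 : ℝ) :=
      continuous_subtype_val.comp continuous_fst
    exact ((continuous_const.sub h3).mul h1).add (h3.mul h2)
  · intro x
    apply Subtype.ext
    funext v
    simp
  · intro x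
    apply Subtype.ext
    funext v
    simp

/-- remove `T` and rescale -/
noncomputable def yy (T : V) (x : V → ℝ) : V → ℝ :=
  fun v => if v = T then 0 else (1 - x T)⁻¹ * x v

theorem yy_of_zero {T : V} {x : V → ℝ} (h : x T = 0) : yy T x = x := by
  funext v
  unfold yy
  split_ifs with h1
  · rw [h1, h]
  · rw [h]
    simp

theorem yy_ne {T : V} {x : V → ℝ} {v : V} (h : yy T x v ≠ 0) : v ≠ T ∧ x v ≠ 0 := by
  unfold yy at h
  split_ifs at h with h1
  · exact absurd rfl h
  · exact ⟨h1, right_ne_zero_of_mul h⟩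

theorem yy_mem {W : Finset V} {T : V} (hT : T ∉ W) {x : V → ℝ} (hx : x ∈ Geo adj (insert T W))
    (h : x T < 1) : yy T x ∈ Geo adj W := by
  have hp : 0 < 1 - x T := by linarith
  refine ⟨fun v => ?_, fun v hv => ?_, ?_, fun v w hv hw => ?_⟩
  · unfold yy
    split_ifs
    · exact le_refl _
    · exact mul_nonneg (inv_nonneg.2 hp.le) (hx.1 v)
  · unfold yy
    split_ifs with h1
    · rfl
    · rw [hx.2.1 v (by rw [Finset.mem_insert]; tauto), mul_zero]
  · have h1 := hx.2.2.1
    rw [Finset.sum_insert hT] at h1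
    have h2 : ∑ v ∈ W, yy T x v = ∑ v ∈ W, (1 - x T)⁻¹ * x v := by
      refine Finset.sum_congr rfl fun v hv => ?_
      unfold yy
      rw [if_neg]
      rintro rfl
      exact hT hv
    rw [h2, ← Finset.mul_sum, show ∑ v ∈ W, x v = 1 - x T by linarith]
    exact inv_mul_cancel₀ hp.ne'
  · exact hx.2.2.2 v w (yy_ne hv).2 (yy_ne hw).2

theorem yy_mem' {W : Finset V} {T : V} (hT : T ∉ W) {x : V → ℝ} (hx : x ∈ Geo adj (insert T W))
    (h : x T < 1) (h0 : x T ≠ 0) : yy T x ∈ Geo adj (W.filter fun v => adj T v) := by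
  refine geo_of_supp (Finset.filter_subset _ _) (yy_mem hT hx h) fun v hv => ?_
  by_contra hc
  have h1 := yy_ne hc
  have h2 : v ∈ W := by
    by_contra h2
    exact hc ((yy_mem hT hx h).2.1 v h2)
  exact hv (Finset.mem_filter.2 ⟨h2, hx.2.2.2 T v h0 h1.2⟩)

theorem continuousOn_yy (T : V) : ContinuousOn (yy T) {x | x T < 1} := by
  refine continuousOn_pi.2 fun v => ?_
  unfold yy
  split_ifs
  · exact continuousOn_const
  · refine ContinuousOn.mul (ContinuousOn.inv₀ ?_ ?_) (continuous_apply v).continuousOn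
    · exact (continuous_const.sub (continuous_apply T)).continuousOn
    · intro x hx
      have : x T < 1 := hx
      linarith [this]

section contr
variable {L : Finset V} (c : C(unitInterval × Geo adj L, Geo adj L))

/-- the contraction, extended -/
noncomputable def ct (y : V → ℝ) (b : ℝ) : V → ℝ :=
  if h : y ∈ Geo adj L ∧ b ∈ Set.Icc (0 : ℝ) 1 then (c (⟨b, h.2⟩, ⟨y, h.1⟩)).1 else y

variable {c}

theorem ct_L {y : V → ℝ} {b : ℝ} (hy : y ∈ Geo adj L) (hb : b ∈ Set.Icc (0 : ℝ) 1) :
    ct c y b ∈ Geo adj L := by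
  unfold ct
  rw [dif_pos ⟨hy, hb⟩]
  exact (c _).2

theorem ct_zero (hc : ∀ y, c (0, y) = y) (y : V → ℝ) : ct c y 0 = y := by
  unfold ct
  split_ifs with h
  · exact congrArg Subtype.val (hc ⟨y, h.1⟩)
  · rfl

theorem ct_one {y0 : Geo adj L} (hc : ∀ y, c (1, y) = y0) {y : V → ℝ} (hy : y ∈ Geo adj L) :
    ct c y 1 = y0.1 := by
  unfold ct
  rw [dif_pos ⟨hy, by norm_num, le_refl _⟩]
  exact congrArg Subtype.val (hc ⟨y, hy⟩)

theorem continuousOn_ct (hc : ∀ y, c (0, y) = y) {W : Finset V} :
    ContinuousOn (fun q : (V → ℝ) × ℝ => ct c q.1 q.2)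
      ((Geo adj W ×ˢ {0}) ∪ (Geo adj L ×ˢ Set.Icc (0 : ℝ) 1)) := by
  refine ContinuousOn.union_of_isClosed ?_ ?_ ?_ ?_
  · refine continuous_fst.continuousOn.congr ?_
    rintro ⟨y, b⟩ ⟨hy, hb⟩
    have hb' : b = 0 := hb
    subst hb'
    exact ct_zero hc y
  · rw [continuousOn_iff_continuous_domRestrict]
    have h1 : ((Geo adj L ×ˢ Set.Icc (0 : ℝ) 1).domRestrict fun q : (V → ℝ) × ℝ => ct c q.1 q.2) =
        fun q => (c (⟨q.1.2, q.2.2⟩, ⟨q.1.1, q.2.1⟩)).1 := by
      funext q
      show ct c q.1.1 q.1.2 = _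
      unfold ct
      rw [dif_pos ⟨q.2.1, q.2.2⟩]
    rw [h1]
    refine continuous_subtype_val.comp (c.continuous.comp (Continuous.prodMk ?_ ?_))
    · exact Continuous.subtype_mk (continuous_snd.comp continuous_subtype_val) _
    · exact Continuous.subtype_mk (continuous_fst.comp continuous_subtype_val) _
  · exact (isClosed_geo W).prod isClosed_singleton
  · exact (isClosed_geo L).prod isClosed_Icc

end contr

theorem tRemoval : Pool.Agent.W297.WS.TRemoval := by
  intro V adj hsym hrefl W T hT hL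
  set L := W.filter (fun v => adj T v) with hLdef
  have hLW : L ⊆ W := Finset.filter_subset _ _
  have hWW : W ⊆ insert T W := Finset.subset_insert _ _
  obtain ⟨y0, ⟨F⟩⟩ := id_nullhomotopic (Geo adj L)
  let c : C(unitInterval × Geo adj L, Geo adj L) := F.toContinuousMap
  have hc0 : ∀ y, c (0, y) = y := fun y => F.apply_zero y
  have hc1 : ∀ y, c (1, y) = y0 := fun y => F.apply_one y
  let R : (V → ℝ) → ℝ → (V → ℝ) := fun x s => ct c (yy T x) (s * (2 * x T))
  have hRZ : ∀ x ∈ Geo adj (insert T W), x T ≤ 1 / 2 → ∀ s ∈ Set.Icc (0 : ℝ) 1,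
      (yy T x, s * (2 * x T)) ∈ (Geo adj W ×ˢ {0}) ∪ (Geo adj L ×ˢ Set.Icc (0 : ℝ) 1) := by
    intro x hx h1 s hs
    by_cases h0 : x T = 0
    · left
      refine ⟨yy_mem hT hx (by linarith), ?_⟩
      show s * (2 * x T) = 0
      rw [h0]
      ring
    · right
      have h2 : 0 ≤ x T := hx.1 T
      refine ⟨yy_mem' hT hx (by linarith) h0, mul_nonneg hs.1 (by linarith), ?_⟩
      show s * (2 * x T) ≤ 1
      have h3 := hs.1
      have h4 := hs.2
      nlinarith
  have hRL : ∀ x ∈ Geo adj (insert T W), x T ≤ 1 / 2 → ∀ s ∈ Set.Icc (0 : ℝ) 1, x T ≠ 0 →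
      R x s ∈ Geo adj L := by
    intro x hx h1 s hs h0
    rcases hRZ x hx h1 s hs with h2 | h2
    · have h3 := yy_mem' hT hx (by linarith) h0
      have h4 : s * (2 * x T) = 0 := h2.2
      show ct c (yy T x) (s * (2 * x T)) ∈ _
      rw [h4]
      exact ct_L h3 ⟨le_refl _, zero_le_one⟩
    · exact ct_L h2.1 h2.2
  have hR0 : ∀ x : V → ℝ, R x 0 = yy T x := by
    intro x
    show ct c (yy T x) (0 * (2 * x T)) = _
    rw [zero_mul, ct_zero hc0]
  have hRT0 : ∀ x : V → ℝ, x T = 0 → ∀ s, R x s = x := by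
    intro x hx s
    show ct c (yy T x) (s * (2 * x T)) = _
    rw [hx, mul_zero, mul_zero, ct_zero hc0, yy_of_zero hx]
  have hRW : ∀ x ∈ Geo adj (insert T W), x T ≤ 1 / 2 → ∀ s ∈ Set.Icc (0 : ℝ) 1,
      R x s ∈ Geo adj W := by
    intro x hx h1 s hs
    by_cases h0 : x T = 0
    · rw [hRT0 x h0, ← yy_of_zero h0]
      exact yy_mem hT hx (by linarith)
    · exact geo_mono hLW (hRL x hx h1 s hs h0)
  have hRhalf : ∀ x ∈ Geo adj (insert T W), x T = 1 / 2 → R x 1 = y0.1 := by
    intro x hx h
    show ct c (yy T x) (1 * (2 * x T)) = _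
    rw [h, show (1 : ℝ) * (2 * (1 / 2)) = 1 by norm_num]
    exact ct_one hc1 (yy_mem' hT hx (by rw [h]; norm_num) (by rw [h]; norm_num))
  have hRcont : ContinuousOn (fun q : (V → ℝ) × ℝ => R q.1 q.2)
      {q | q.1 ∈ Geo adj (insert T W) ∧ q.1 T ≤ 1 / 2 ∧ q.2 ∈ Set.Icc (0 : ℝ) 1} := by
    refine (continuousOn_ct (L := L) (W := W) hc0).comp
      (f := fun q : (V → ℝ) × ℝ => (yy T q.1, q.2 * (2 * q.1 T))) ?_ ?_
    · refine ContinuousOn.prodMk ?_ ?_
      · refine (continuousOn_yy T).comp continuous_fst.continuousOn ?_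
        rintro q ⟨-, h1, -⟩
        show q.1 T < 1
        linarith
      · have : Continuous fun q : (V → ℝ) × ℝ => q.2 * (2 * q.1 T) :=
          continuous_snd.mul (continuous_const.mul ((continuous_apply T).comp continuous_fst))
        exact this.continuousOn
    · rintro q ⟨h1, h2, h3⟩
      exact hRZ q.1 h1 h2 q.2 h3
  -- the vertex `T`
  let δ : V → ℝ := fun v => if v = T then 1 else 0
  have hδ : δ ∈ Geo adj (insert T W) := by
    refine ⟨fun v => ?_, fun v hv => ?_, ?_, fun v w hv hw => ?_⟩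
    · show 0 ≤ (if v = T then (1 : ℝ) else 0)
      split_ifs <;> norm_num
    · show (if v = T then (1 : ℝ) else 0) = 0
      rw [if_neg]
      rintro rfl
      exact hv (Finset.mem_insert_self _ _)
    · show ∑ v ∈ insert T W, (if v = T then (1 : ℝ) else 0) = 1
      rw [Finset.sum_ite_eq' (insert T W) T fun _ => (1 : ℝ), if_pos (Finset.mem_insert_self _ _)]
    · have hv' : v = T := by
        by_contra h
        exact hv (if_neg h)
      have hw' : w = T := by
        by_contra h
        exact hw (if_neg h)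
      rw [hv', hw']
      exact hrefl T
  have hδne : ∀ v, δ v ≠ 0 → v = T := by
    intro v hv
    by_contra h
    exact hv (if_neg h)
  -- the middle homotopy
  let H : (V → ℝ) → ℝ → (V → ℝ) := fun x s =>
    if x T ≤ 1 / 2 then (fun v => (1 - 2 * x T) * R x s v + 2 * x T * δ v) else δ
  have hH : ∀ x ∈ Geo adj (insert T W), ∀ s ∈ Set.Icc (0 : ℝ) 1, H x s ∈ Geo adj (insert T W) := by
    intro x hx s hs
    show (if x T ≤ 1 / 2 then (fun v => (1 - 2 * x T) * R x s v + 2 * x T * δ v) else δ) ∈ _
    split_ifs with h1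
    · have h2 : 0 ≤ x T := hx.1 T
      refine comb hsym (geo_mono hWW (hRW x hx h1 s hs)) hδ (by linarith) (by linarith) ?_
      intro h3 _ v w hv hw
      have h4 : x T ≠ 0 := by
        intro h4
        exact h3 (by rw [h4, mul_zero])
      have h5 := hRL x hx h1 s hs h4
      have h6 : v ∈ L := by
        by_contra h6
        exact hv (h5.2.1 v h6)
      rw [hδne w hw]
      exact hsym _ _ (Finset.mem_filter.1 h6).2
    · exact hδ
  have hHcont : Continuous fun q : unitInterval × Geo adj (insert T W) => H q.2.1 (q.1 : ℝ) := by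
    have e1 : Continuous fun q : unitInterval × Geo adj (insert T W) => q.2.1 T :=
      (continuous_apply T).comp (continuous_subtype_val.comp continuous_snd)
    refine continuous_if_le e1 continuous_const ?_ continuousOn_const ?_
    · refine continuousOn_pi.2 fun v => ?_
      have e2 : ContinuousOn (fun q : unitInterval × Geo adj (insert T W) =>
          R q.2.1 (q.1 : ℝ)) {q | q.2.1 T ≤ 1 / 2} := by
        refine hRcont.comp (f := fun q : unitInterval × Geo adj (insert T W) =>
          (q.2.1, (q.1 : ℝ))) ?_ ?_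
        · exact ((continuous_subtype_val.comp continuous_snd).prodMk
            (continuous_subtype_val.comp continuous_fst)).continuousOn
        · intro q hq
          exact ⟨q.2.2, hq, q.1.2⟩
      have e3 := (continuous_apply v).comp_continuousOn e2
      exact ((continuous_const.sub (continuous_const.mul e1)).continuousOn.mul e3).add
        ((continuous_const.mul e1).mul continuous_const).continuousOn
    · intro q hq
      funext v
      have hq' : q.2.1 T = 1 / 2 := hq
      show (1 - 2 * q.2.1 T) * R q.2.1 (q.1 : ℝ) v + 2 * q.2.1 T * δ v = δ v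
      rw [hq']
      ring
  -- the retraction
  let r : (V → ℝ) → (V → ℝ) := fun x => if x T ≤ 1 / 2 then R x 1 else y0.1
  have h01 : (1 : ℝ) ∈ Set.Icc (0 : ℝ) 1 := ⟨zero_le_one, le_refl _⟩
  have hr : ∀ x ∈ Geo adj (insert T W), r x ∈ Geo adj W := by
    intro x hx
    show (if x T ≤ 1 / 2 then R x 1 else y0.1) ∈ _
    split_ifs with h1
    · exact hRW x hx h1 1 h01
    · exact geo_mono hLW y0.2
  have hrcont : Continuous fun x : Geo adj (insert T W) => r x.1 := by
    have e1 : Continuous fun x : Geo adj (insert T W) => x.1 T :=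
      (continuous_apply T).comp continuous_subtype_val
    refine continuous_if_le e1 continuous_const ?_ continuousOn_const ?_
    · refine hRcont.comp (f := fun x : Geo adj (insert T W) => (x.1, (1 : ℝ))) ?_ ?_
      · exact (continuous_subtype_val.prodMk continuous_const).continuousOn
      · intro x hx
        exact ⟨x.2, hx, h01⟩
    · intro x hx
      exact hRhalf x.1 x.2 hx
  let J : C(Geo adj W, Geo adj (insert T W)) :=
    ⟨fun x => ⟨x.1, geo_mono hWW x.2⟩, Continuous.subtype_mk continuous_subtype_val _⟩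
  let Rr : C(Geo adj (insert T W), Geo adj W) :=
    ⟨fun x => ⟨r x.1, hr x.1 x.2⟩, Continuous.subtype_mk hrcont _⟩
  let H0 : C(Geo adj (insert T W), Geo adj (insert T W)) :=
    ⟨fun x => ⟨H x.1 0, hH x.1 x.2 0 ⟨le_refl _, zero_le_one⟩⟩,
      Continuous.subtype_mk (hHcont.comp ((continuous_const (y := (0 : unitInterval))).prodMk
        continuous_id)) _⟩
  let H1 : C(Geo adj (insert T W), Geo adj (insert T W)) :=
    ⟨fun x => ⟨H x.1 1, hH x.1 x.2 1 h01⟩,
      Continuous.subtype_mk (hHcont.comp ((continuous_const (y := (1 : unitInterval))).prodMk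
        continuous_id)) _⟩
  have hH01 : H0.Homotopic H1 :=
    ⟨{ toFun := fun q => ⟨H q.2.1 (q.1 : ℝ), hH q.2.1 q.2.2 q.1 q.1.2⟩
       continuous_toFun := Continuous.subtype_mk hHcont _
       map_zero_left := fun x => rfl
       map_one_left := fun x => rfl }⟩
  have hid : (ContinuousMap.id (Geo adj (insert T W))).Homotopic H0 := by
    refine straight hsym _ _ fun x v w hv hw => ?_
    have hv' : x.1 v ≠ 0 := hv
    have hw' : H x.1 0 w ≠ 0 := hw
    have hw'' : x.1 w ≠ 0 := by
      by_cases h1 : x.1 T ≤ 1 / 2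
      · have h2 : H x.1 0 w = (1 - 2 * x.1 T) * R x.1 0 w + 2 * x.1 T * δ w := by
          show (if x.1 T ≤ 1 / 2 then (fun v => (1 - 2 * x.1 T) * R x.1 0 v + 2 * x.1 T * δ v)
            else δ) w = _
          rw [if_pos h1]
        rw [h2, hR0] at hw'
        intro h3
        by_cases h4 : yy T x.1 w = 0
        · rw [h4, mul_zero, zero_add] at hw'
          have h5 := hδne w (right_ne_zero_of_mul hw')
          rw [h5] at h3
          rw [h3] at hw'
          simp at hw'
        · exact (yy_ne h4).2 h3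
      · have h2 : H x.1 0 w = δ w := by
          show (if x.1 T ≤ 1 / 2 then (fun v => (1 - 2 * x.1 T) * R x.1 0 v + 2 * x.1 T * δ v)
            else δ) w = _
          rw [if_neg h1]
        rw [h2] at hw'
        rw [hδne w hw']
        intro h3
        exact h1 (by rw [h3]; norm_num)
    exact x.2.2.2.2 v w hv' hw''
  have hlast : H1.Homotopic (J.comp Rr) := by
    refine straight hsym _ _ fun x v w hv hw => ?_
    have hv' : H x.1 1 v ≠ 0 := hv
    have hw' : r x.1 w ≠ 0 := hw
    by_cases h1 : x.1 T ≤ 1 / 2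
    · have h2 : H x.1 1 v = (1 - 2 * x.1 T) * R x.1 1 v + 2 * x.1 T * δ v := by
        show (if x.1 T ≤ 1 / 2 then (fun v => (1 - 2 * x.1 T) * R x.1 1 v + 2 * x.1 T * δ v)
          else δ) v = _
        rw [if_pos h1]
      have h3 : r x.1 w = R x.1 1 w := by
        show (if x.1 T ≤ 1 / 2 then R x.1 1 else y0.1) w = _
        rw [if_pos h1]
      rw [h2] at hv'
      rw [h3] at hw'
      by_cases h4 : R x.1 1 v = 0
      · rw [h4, mul_zero, zero_add] at hv'
        have h5 := hδne v (right_ne_zero_of_mul hv')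
        have h6 : x.1 T ≠ 0 := by
          intro h6
          rw [h6] at hv'
          simp at hv'
        have h7 := hRL x.1 x.2 h1 1 h01 h6
        have h8 : w ∈ L := by
          by_contra h8
          exact hw' (h7.2.1 w h8)
        rw [h5]
        exact (Finset.mem_filter.1 h8).2
      · exact (hRW x.1 x.2 h1 1 h01).2.2.2 v w h4 hw'
    · have h2 : H x.1 1 v = δ v := by
        show (if x.1 T ≤ 1 / 2 then (fun v => (1 - 2 * x.1 T) * R x.1 1 v + 2 * x.1 T * δ v)
          else δ) v = _
        rw [if_neg h1]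
      have h3 : r x.1 w = y0.1 w := by
        show (if x.1 T ≤ 1 / 2 then R x.1 1 else y0.1) w = _
        rw [if_neg h1]
      rw [h2] at hv'
      rw [h3] at hw'
      have h8 : w ∈ L := by
        by_contra h8
        exact hw' (y0.2.2.1 w h8)
      rw [hδne v hv']
      exact (Finset.mem_filter.1 h8).2
  refine ⟨{ toFun := J
            invFun := Rr
            left_inv := ?_
            right_inv := ?_ }⟩
  · have : Rr.comp J = ContinuousMap.id _ := by
      ext x : 1
      apply Subtype.ext
      have h0 : x.1 T = 0 := x.2.2.1 T hT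
      show (if x.1 T ≤ 1 / 2 then R x.1 1 else y0.1) = x.1
      rw [if_pos (by rw [h0]; norm_num), hRT0 x.1 h0]
    rw [this]
  · exact ((hid.trans hH01).trans hlast).symm

end Pool.Agent.W400.WS.Removal
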